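import Pool.Agent.X255.RH.Main
import Pool.Agent.H39HC.Indep

/-!
# The hyperbolic analytic subspace conjecture at almost all algebraic points of curves in Shimura varieties, with all conjugates

Let `S' ⊆ S` be a Shimura subvariety through the special point `[o]` (for example `S' = S`), with the domains `X' ⊆ X`, and
let a curve in `S'` be given which is not contained in a proper weakly special subvariety of `S'`. Let `V` be a connected
open set of the plane of a nonconstant rational function `x` on the curve over which a branch of the curve is given. Let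
`x_1, …, x_r` be all the roots in `V` of an integral polynomial of degree `g ≥ 1`; for an irreducible polynomial these are
the conjugates in `V` of an algebraic number, and they give the points `[z_1], …, [z_r]` of the curve, which are algebraic
points of `S'` if the curve is defined over the algebraic numbers (they are conjugates if it is defined over `ℚ`). We
consider the Harish-Chandra coordinates `z_1, …, z_r ∈ T_o X'` of all these points together, so the point `(z_1, …, z_r)` of
`(T_o X)^r`, the tangent space of `S^r` at the special point `([o], …, [o])`. We prove that for almost all polynomials every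
subspace `W` of `(T_o X)^r` which contains the point `(z_1, …, z_r)` and is rational for the arithmetic structure, over some
number field of degree at most `ω(T)`, with equations of height at most `T ^ ω(T)`, contains the whole of
`(T_o X')^r = T_(o, …, o) (X' ^ r)`. Here `T` is the height of the polynomial and `ω(T) → ∞`. So the answer to Q1 is yes for
these points and subspaces, with the bi-`ℚ̄`-subspace `V' = (T_o X')^r`, and `V'` is the tangent space of the Shimura
subvariety `S'^r` of `S^r` through the two points, as in Q2; for `r = 1` or a subspace of one factor this is Q1 for `S`.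
More generally the coordinates of the points `z_1, …, z_r` together satisfy no polynomial relation of degree at most `ω(T)`
with coefficients of this kind. The equations of `W` and the relations may also contain arbitrary given complex numbers
`ξ_0, ξ_1, …`, for example all the monomials in `π` and in the periods of `[o]`; so one can also take subspaces which are
rational for other structures, for example for the geometric structure.

## The dictionary

Let `G → GL(L)` be a representation over `ℚ` of the group of `S` (of rank `n`), for example the adjoint representation. A point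
`x ∈ X` gives a decomposition `L ⊗ ℂ = ⊕ L_x^w` with integral weights `w`, and the filtration with the steps
`F_x = ⊕_(w ≥ p) L_x^w`. The Lie algebra of `G_ℂ` is `𝔭⁻ ⊕ 𝔨 ⊕ 𝔭⁺` at `o`, where `𝔭⁺ = T_o X` is abelian and its elements lower
the weights by one. The Harish-Chandra coordinate of `z ∈ X` is the element `N ∈ 𝔭⁺` with `F_z = exp(N) F_o` (for all `p`). If
the maps `L_o^p → L_o^(p-1)` given by the elements of `𝔭⁺` determine these elements (as for `p = 1` and abelian varieties, for
`p = 0` and the adjoint representation, and for the line `F_o` and orthogonal groups) then one step `p` suffices. In the file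
`U` is a matrix whose columns are a basis of `L ⊗ ℂ` adapted to the decomposition at `o` (`w i` is the weight of the `i`-th
column), the matrices `b_1, …, b_d` are a basis of `T_o X' ⊆ 𝔭⁺ ⊆ End(L ⊗ ℂ)`, adapted to the arithmetic structure, and `y`
are the coordinates of `N`.

The matrix `P(x)` is the period matrix of the fibre at `x ∈ V` of the variation of Hodge structures over the curve given by
`L`: its columns are the vectors of the periods of a basis of the de Rham realization which is adapted to the Hodge
filtration, so the columns with the indices `i`, `w i ≥ p`, span `F_z` for the point `z ∈ X'` above the point `x`. All points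
of `X'` have a Harish-Chandra coordinate in `T_o X'`. By André the identity component of the monodromy group is the
derived group of the group of `S'`; it contains `exp(T_o X')`, and it acts on the algebraic relations over `ℂ(x)` between the
entries of `P`: this is the condition `large`. Nothing else is used about the curve; it need not be defined over the
algebraic numbers.

## Proof

Let `y_1(x), …, y_d(x)` be the coordinates of the Harish-Chandra coordinate of the point over `x`. They are quotients
`T_l / D` of polynomials in the entries of `P(x)`, where `D` has no zeros on `V`, hence analytic. Let `Q(x, y_1(x), …) = 0` on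
`V`. We multiply by a power of `D` and get a polynomial relation between `x` and the entries of `P(x)`. It is preserved by
the elements `exp(M) exp(- N)`, `M ∈ T_o X'`, of the monodromy group. For `N = N(x)` these elements map `F_z = exp(N) F_o` to
`exp(M) F_o`. So `Q(x, M) = 0` for all `x ∈ V` and all `M`, and `Q = 0`. So the functions `x, y_1(x), …, y_d(x)` are
algebraically independent, and we apply the theorem `Pool.Agent.X255.RH.main_all` on the values of such functions at all
roots of almost all polynomials.
-/

set_option autoImplicit false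

open Polynomial Filter Topology NumberField Matrix

namespace Pool.Agent.Results.MP_1e27bd_ag.AllAlgebraicPoints

variable {n d : ℕ}

/-! ### Points and tangent spaces -/

/-- The tangent vector `N = ∑ y_l b_l`. -/
noncomputable def combine (b : Fin d → Matrix (Fin n) (Fin n) ℂ) (y : Fin d → ℂ) : Matrix (Fin n) (Fin n) ℂ :=
  ∑ l, y l • b l

/-- `U` is a basis adapted to the Hodge decomposition at `o`, where `w` are the weights, the `b l` lower the weights by one,
and the maps from the part of weight `p` to the part of weight `p - 1` determine the combinations of the `b l`. -/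
structure IsTangentBasis (w : Fin n → ℤ) (p : ℤ) (U : Matrix (Fin n) (Fin n) ℂ)
    (b : Fin d → Matrix (Fin n) (Fin n) ℂ) : Prop where
  frame : IsUnit U.det
  lowers : ∀ l i j, (U⁻¹ * b l * U) i j ≠ 0 → w i = w j - 1
  faithful : ∀ y : Fin d → ℂ, (∀ i j, w i = p - 1 → w j = p → (U⁻¹ * combine b y * U) i j = 0) → y = 0

/-- The columns in the step `w ≥ p` of the filtration. -/
def step (w : Fin n → ℤ) (p : ℤ) (P : Matrix (Fin n) (Fin n) ℂ) : Matrix (Fin n) {i : Fin n // p ≤ w i} ℂ :=
  P.submatrix id Subtype.val

/-- `N = ∑ y_l b_l` is the Harish-Chandra coordinate of the point with the period matrix `P`: `F_z = exp(N) F_o` (the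
matrix `Y` is then invertible; `N` is nilpotent and `IsNilpotent.exp` is the exponential). -/
def IsCoordinate (w : Fin n → ℤ) (p : ℤ) (U : Matrix (Fin n) (Fin n) ℂ) (b : Fin d → Matrix (Fin n) (Fin n) ℂ)
    (P : Matrix (Fin n) (Fin n) ℂ) (y : Fin d → ℂ) : Prop :=
  ∃ Y : Matrix {i : Fin n // p ≤ w i} {i : Fin n // p ≤ w i} ℂ,
    step w p P * Y = step w p (IsNilpotent.exp (combine b y) * U)

/-! ### Curves -/

/-- The value of a polynomial in `1 + n²` variables at `x` and the entries of a matrix. -/
noncomputable def value (F : MvPolynomial (Option (Fin n × Fin n)) ℂ) (x : ℂ) (M : Matrix (Fin n) (Fin n) ℂ) : ℂ :=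
  MvPolynomial.eval (fun o => o.elim x fun q => M q.1 q.2) F

/-- The periods of a curve in `S'` over the connected open set `V`. -/
structure IsCurve (w : Fin n → ℤ) (p : ℤ) (U : Matrix (Fin n) (Fin n) ℂ) (b : Fin d → Matrix (Fin n) (Fin n) ℂ)
    (V : Set ℂ) (P : ℂ → Matrix (Fin n) (Fin n) ℂ) : Prop where
  isOpen : IsOpen V
  isPreconnected : IsPreconnected V
  nonempty : V.Nonempty
  analytic : ∀ i j, AnalyticOnNhd ℂ (fun x => P x i j) V
  /-- the points of the curve have Harish-Chandra coordinates in `T_o X'` -/
  coordinate : ∀ x ∈ V, ∃ y, IsCoordinate w p U b (P x) y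
  /-- large monodromy: `exp(T_o X')` preserves all polynomial relations between `x` and the entries of `P(x)` -/
  large : ∀ F : MvPolynomial (Option (Fin n × Fin n)) ℂ, (∀ x ∈ V, value F x (P x) = 0) →
    ∀ y : Fin d → ℂ, ∀ x ∈ V, value F x (IsNilpotent.exp (combine b y) * P x) = 0

/-! ### Polynomials and their roots -/

/-- The integral vectors `a = (a_0, …, a_g)` with `|a_i| ≤ T`. -/
noncomputable def box (g T : ℕ) : Finset (Fin (g + 1) → ℤ) := Fintype.piFinset fun _ => Finset.Icc (-(T : ℤ)) (T : ℤ)

/-- The polynomial `a_0 + a_1 x + … + a_g x^g`. -/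
noncomputable def poly {g : ℕ} (a : Fin (g + 1) → ℤ) : ℂ[X] := ∑ i, C (a i : ℂ) * X ^ (i : ℕ)

/-- The points `z` of `V` such that every point `w` which is not in `V` has distance at least `1 / (k + 1)` from `z`, or
`z` is not real and `w` is not nearer to `z` than the real line. These are all points of `V` at distance at least
`1 / (k + 1)` from the complement of `V`, and all nonreal points of `V` if the complement of `V` consists of real numbers
or if `V` is the upper half-plane. -/
def dom (V : Set ℂ) (k : ℕ) : Set ℂ :=
  {z | z ∈ V ∧ ∀ w, w ∉ V → (z.im ≠ 0 ∧ |z.im| ≤ ‖z - w‖) ∨ 1 / ((k : ℝ) + 1) ≤ ‖z - w‖}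

/-- The roots in `dom V k` of the polynomial with the coefficients `a`. -/
noncomputable def roots (V : Set ℂ) {g : ℕ} (k : ℕ) (a : Fin (g + 1) → ℤ) : Finset ℂ := by
  classical exact (poly a).roots.toFinset.filter fun z => z ∈ dom V k

/-! ### Subspaces and relations -/

/-- `W` is given by linear equations whose coefficients are sums `∑_{b < k} ξ_b c_b`, where the `c_b` are integers of one
number field of degree at most `k` all of whose conjugates are at most `T ^ k`. -/
def Rational {Q : Type} [Fintype Q] (ξ : ℕ → ℂ) (k : ℕ) (T : ℝ) (W : Submodule ℂ (Q → ℂ)) : Prop :=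
  ∃ (F : Type) (_ : Field F) (_ : NumberField F) (io : F →+* ℂ) (E : Set (Q → Fin k → 𝓞 F)),
    Module.finrank ℚ F ≤ k ∧ (∀ c ∈ E, ∀ q b (φ : F →+* ℂ), ‖φ (c q b : F)‖ ≤ T ^ k) ∧
    ∀ u, u ∈ W ↔ ∀ c ∈ E, ∑ q, (∑ b : Fin k, ξ b * io (c q b : F)) * u q = 0

/-- The numbers `x q` satisfy no relation of degree at most `k` in each of them with coefficients `∑_{b < k} ξ_b c_b`,
where the `c_b` are integers of a number field of degree at most `k` all of whose conjugates are at most `T ^ k`, except
the relations all of whose coefficients vanish. -/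
def NoRelation {Q : Type} [Fintype Q] [DecidableEq Q] (ξ : ℕ → ℂ) (k : ℕ) (T : ℝ) (x : Q → ℂ) : Prop :=
  ∀ (F : Type) [Field F] [NumberField F], Module.finrank ℚ F ≤ k → ∀ (io : F →+* ℂ)
    (c : (Q → Fin (k + 1)) → Fin k → 𝓞 F), (∀ l b (φ : F →+* ℂ), ‖φ (c l b : F)‖ ≤ T ^ k) →
    ∑ l, (∑ b : Fin k, ξ b * io (c l b : F)) * ∏ q, x q ^ (l q : ℕ) = 0 → ∀ l, ∑ b : Fin k, ξ b * io (c l b : F) = 0

/-- Here `y` are the coordinates of a vector of `(T_o X')^r`, and `(T_o X)^r = (T_o X')^r ⊕ ℂ ^ e`: every rational subspace
`W` which contains the vector contains `(T_o X')^r`, and there is no relation between the coordinates `y`. -/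
def Generic {Q : Type} [Fintype Q] [DecidableEq Q] (ξ : ℕ → ℂ) (k : ℕ) (T : ℝ) (y : Q → ℂ) : Prop :=
  (∀ (e : ℕ) (W : Submodule ℂ (Q ⊕ Fin e → ℂ)), Rational ξ k T W → Sum.elim y 0 ∈ W → ∀ u : Q → ℂ, Sum.elim u 0 ∈ W) ∧
    NoRelation ξ k T y

/-- The polynomial with the coefficients `a` has degree `g` and simple roots, and the Harish-Chandra coordinates
`y x` of the points of the curve over all its roots `x` in `dom V k` together are generic. -/
def Good (w : Fin n → ℤ) (p : ℤ) (U : Matrix (Fin n) (Fin n) ℂ) (b : Fin d → Matrix (Fin n) (Fin n) ℂ) (V : Set ℂ)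
    (P : ℂ → Matrix (Fin n) (Fin n) ℂ) {g : ℕ} (ξ : ℕ → ℂ) (k : ℕ) (T : ℝ) (a : Fin (g + 1) → ℤ) : Prop :=
  a (Fin.last g) ≠ 0 ∧ (poly a).Separable ∧
    ∀ y : {x // x ∈ roots V k a} → Fin d → ℂ, (∀ x : {x // x ∈ roots V k a}, IsCoordinate w p U b (P x) (y x)) →
      Generic ξ k T fun q : {x // x ∈ roots V k a} × Fin d => y q.1 q.2

/-! ### The theorem -/

theorem tame (V : Set ℂ) (k : ℕ) : Pool.Agent.X255.RH.Tame (dom V k) V :=
  ⟨∅, 1 / ((k : ℝ) + 1), by positivity, fun R => by simp, fun z hz w hw => Or.inr (hz.2 w hw)⟩

lemma combine_eq (b : Fin d → Matrix (Fin n) (Fin n) ℂ) (y : Fin d → ℂ) : combine b y = Pool.Agent.H39HC.cb b y := rfl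

lemma IsTangentBasis.data {w : Fin n → ℤ} {p : ℤ} {U : Matrix (Fin n) (Fin n) ℂ} {b : Fin d → Matrix (Fin n) (Fin n) ℂ}
    (h : IsTangentBasis w p U b) : Pool.Agent.H39HC.Data w p U b :=
  ⟨h.frame, h.lowers, h.faithful⟩

/-- no relation implies the statement on subspaces -/
lemma generic_of {Q : Type} [Fintype Q] [DecidableEq Q] {ξ : ℕ → ℂ} {k : ℕ} {T : ℝ} (hT : 0 ≤ T) {y : Q → ℂ}
    (h : NoRelation ξ k T y) : Generic ξ k T y := by
  refine ⟨fun e W hW hy u => ?_, h⟩
  obtain ⟨F, _, _, io, E, hF, hE, hW⟩ := hW
  rw [hW] at hy ⊢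
  intro c hc
  have h1 := hy c hc
  rw [Fintype.sum_sum_type] at h1 ⊢
  simp only [Sum.elim_inl, Sum.elim_inr, Pi.zero_apply, mul_zero, Finset.sum_const_zero, add_zero] at h1 ⊢
  rcases Nat.eq_zero_or_pos k with hk | hk
  · subst hk
    simp
  -- the exponent vectors of the variables
  let m : Q → Q → Fin (k + 1) := fun q q' => if q' = q then ⟨1, by omega⟩ else 0
  have hm : Function.Injective m := by
    intro q q' hqq
    by_contra hne
    have h2 := congrFun hqq q
    simp only [m, if_true, if_neg hne] at h2
    have h3 := congrArg Fin.val h2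
    simp at h3
  have hprod : ∀ q, ∏ q', y q' ^ (m q q' : ℕ) = y q := by
    intro q
    rw [Finset.prod_eq_single q]
    · simp [m]
    · intro q' _ hq'
      simp [m, hq']
    · intro hq
      exact absurd (Finset.mem_univ q) hq
  classical
  let c' : (Q → Fin (k + 1)) → Fin k → 𝓞 F := fun l b => if hl : ∃ q, m q = l then c (Sum.inl hl.choose) b else 0
  have hc'1 : ∀ q b, c' (m q) b = c (Sum.inl q) b := by
    intro q b
    have hex : ∃ q', m q' = m q := ⟨q, rfl⟩
    have h2 : hex.choose = q := hm hex.choose_spec
    simp only [c']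
    rw [dif_pos hex, h2]
  have hc'0 : ∀ l, (¬ ∃ q, m q = l) → ∀ b, c' l b = 0 := by
    intro l hl b
    simp only [c']
    rw [dif_neg hl]
  have hkey := h F hF io c' (by
    intro l b φ
    by_cases hl : ∃ q, m q = l
    · obtain ⟨q, rfl⟩ := hl
      rw [hc'1]
      exact hE c hc _ _ _
    · rw [hc'0 l hl]
      simp only [map_zero, norm_zero]
      positivity) (by
    rw [← h1]
    symm
    rw [← Finset.sum_subset (Finset.subset_univ (Finset.univ.image m))]
    · rw [Finset.sum_image (fun q _ q' _ hqq => hm hqq)]
      refine Finset.sum_congr rfl fun q _ => ?_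
      rw [hprod]
      simp only [hc'1]
    · intro l _ hl
      have hl' : ¬ ∃ q, m q = l := by
        rintro ⟨q, rfl⟩
        exact hl (Finset.mem_image_of_mem m (Finset.mem_univ q))
      simp [hc'0 l hl'])
  refine Finset.sum_eq_zero fun q _ => ?_
  have h2 := hkey (m q)
  simp only [hc'1] at h2
  rw [h2, zero_mul]

/-- the coordinate functions -/
theorem exists_functions {w : Fin n → ℤ} {p : ℤ} {U : Matrix (Fin n) (Fin n) ℂ}
    {b : Fin d → Matrix (Fin n) (Fin n) ℂ} {V : Set ℂ} {P : ℂ → Matrix (Fin n) (Fin n) ℂ}
    (hb : IsTangentBasis w p U b) (h : IsCurve w p U b V P) :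
    ∃ f : Fin d → ℂ → ℂ, (∀ l, AnalyticOnNhd ℂ (f l) V) ∧ Pool.Agent.Y771.KF.AIndepS f V ∧
      ∀ x ∈ V, ∀ y, IsCoordinate w p U b (P x) y → ∀ l, y l = f l x := by
  obtain ⟨D, T, hDT⟩ := Pool.Agent.H39HC.exists_frac hb.data
  have han : ∀ F : MvPolynomial (Option (Fin n × Fin n)) ℂ, AnalyticOnNhd ℂ (fun x => Pool.Agent.H39HC.evP F x (P x)) V := by
    intro F x hx
    unfold Pool.Agent.H39HC.evP
    induction F using MvPolynomial.induction_on with
    | C c => simpa using analyticAt_const
    | add F G hF hG =>
      simp only [map_add]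
      exact hF.fun_add hG
    | mul_X F o hF =>
      have h1 : AnalyticAt ℂ (fun x => (fun o : Option (Fin n × Fin n) => o.elim x fun q => P x q.1 q.2) o) x := by
        cases o with
        | none => exact analyticAt_id
        | some q => exact h.analytic q.1 q.2 x hx
      simp only [map_mul, MvPolynomial.eval_X]
      exact hF.fun_mul h1
  have hval : ∀ x ∈ V, ∀ y, IsCoordinate w p U b (P x) y → ∀ l,
      y l = Pool.Agent.H39HC.evP (T l) x (P x) / Pool.Agent.H39HC.evP D x (P x) := by
    intro x hx y hy l
    obtain ⟨h1, h2⟩ := hDT x (P x) y hy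
    rw [h2 l, mul_div_cancel_left₀ _ h1]
  refine ⟨fun l x => Pool.Agent.H39HC.evP (T l) x (P x) / Pool.Agent.H39HC.evP D x (P x), fun l x hx => ?_, ?_, hval⟩
  · obtain ⟨y, hy⟩ := h.coordinate x hx
    exact (han (T l) x hx).div (han D x hx) (hDT x (P x) y hy).1
  · intro Q hQ
    obtain ⟨x₀, hx₀⟩ := h.nonempty
    have hinf : V.Infinite := infinite_of_mem_nhds x₀ (h.isOpen.mem_nhds hx₀)
    refine Pool.Agent.H39HC.indep hb.data hinf P
      (fun x l => Pool.Agent.H39HC.evP (T l) x (P x) / Pool.Agent.H39HC.evP D x (P x)) (fun x hx => ?_) h.large Q hQ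
    obtain ⟨y, hy⟩ := h.coordinate x hx
    have h1 : (fun l => Pool.Agent.H39HC.evP (T l) x (P x) / Pool.Agent.H39HC.evP D x (P x)) = y := by
      funext l
      exact (hval x hx y hy l).symm
    rw [h1]
    exact hy

open scoped Classical in
/-- **The theorem.** Let a curve in `S'` be given. For every degree `g ≥ 1` and all complex numbers `ξ_0, ξ_1, …` (for
instance `ξ_0 = 1` and all others zero) there is a function `ω(T) → ∞` such that among the `(2 T + 1)^(g + 1)` integral
polynomials of degree at most `g` with coefficients at most `T` at most the proportion `1 / ω(T)` is not good. -/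
theorem result (w : Fin n → ℤ) (p : ℤ) (U : Matrix (Fin n) (Fin n) ℂ) (b : Fin d → Matrix (Fin n) (Fin n) ℂ)
    (V : Set ℂ) (P : ℂ → Matrix (Fin n) (Fin n) ℂ) (hb : IsTangentBasis w p U b) (hP : IsCurve w p U b V P)
    (g : ℕ) (hg : 0 < g) (ξ : ℕ → ℂ) :
    ∃ ω : ℕ → ℕ, Tendsto ω atTop atTop ∧ Monotone ω ∧ ∀ T : ℕ,
      ω T * ((box g T).filter fun a => ¬ Good w p U b V P ξ (ω T) T a).card ≤ (box g T).card := by
  obtain ⟨f, hfa, hfi, hfv⟩ := exists_functions hb hP
  obtain ⟨ω, h1, h2, h3⟩ := Pool.Agent.X255.RH.main_all (f := f) hg hP.isPreconnected hP.isOpen (dom V) (tame V) hfa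
    (Pool.Agent.X255.RH.indep_of_aindepS hfi) ξ
  refine ⟨ω, h1, h2, fun T => ?_⟩
  have key := h3 T
  have hsub : ((box g T).filter fun a => ¬ Good w p U b V P ξ (ω T) T a) ⊆
      ((Pool.Agent.X255.RH.bx g T).filter fun a => ¬ Pool.Agent.X255.RH.Good (dom V (ω T)) f ξ (ω T) T a) := by
    intro a ha
    rw [Finset.mem_filter] at ha ⊢
    refine ⟨ha.1, fun hgood => ha.2 ⟨hgood.1, hgood.2.1, fun y hy => generic_of (Nat.cast_nonneg T) ?_⟩⟩
    have h5 : (fun q : {x // x ∈ roots V (ω T) a} × Fin d => y q.1 q.2) = Pool.Agent.X255.RH.vals (dom V (ω T)) f a := by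
      funext q
      have hq : (q.1 : ℂ) ∈ dom V (ω T) := (Finset.mem_filter.1 q.1.2).2
      exact hfv _ hq.1 _ (hy q.1) q.2
    rw [h5]
    exact hgood.2.2
  exact le_trans (Nat.mul_le_mul_left _ (Finset.card_le_card hsub)) key

end Pool.Agent.Results.MP_1e27bd_ag.AllAlgebraicPoints
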