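import Pool.Agent.H39HC.IndepM

/-!
# The hyperbolic analytic subspace conjecture at 100 percent of the points of all Shimura varieties and of their subvarieties

Let `S` be any Shimura variety, let `S' ⊆ S` be a Shimura subvariety through the special point `[o]` (for example `S' = S`),
with the domains `X' ⊆ X`, and let `B ⊆ S'` be a subvariety of dimension `N ≥ 1` which is not contained in a proper weakly
special subvariety of `S'` (for example `B = S' = S`). Let `x_1, …, x_N` be rational functions on `B` which are algebraically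
independent, and let `V ⊆ ℂ ^ N` be a connected open set over which a branch of `B` is given. The points of `V` whose
coordinates are in number fields are algebraic points `[z]` of `S'` if `B` and the functions `x_i` are defined over the
algebraic numbers, and all algebraic points of (an open part of) `B` are obtained in this way. We prove for all number
fields `K` of degree at most `ω(T)`: apart from the points on at most `T ^ (1 / ω(T))` hypersurfaces of degree at most
`T ^ (1 / ω(T))`, for all points over `K` of height at most `T` (in a compact set which increases to `V`) every subspace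
`W ⊆ T_o X` which contains the Harish-Chandra coordinate of `z` and is rational for the arithmetic structure, over `K`, with
equations of height at most `T ^ ω(T)`, contains the whole of `T_o X'`. Here `ω(T) → ∞`. So the answer to Q1 is yes for these
points and subspaces, with the bi-`ℚ̄`-subspace `V' = T_o X'`, and `V'` is the tangent space of a Shimura subvariety through
`[o]` and `[z]`, as in Q2. More generally the coordinates of `z` satisfy no polynomial relation of degree at most `ω(T)`
over `K` of this height. The equations of `W` and the relations may also contain arbitrary complex numbers `ξ_b`, `b < ω(T)`,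
for example all the monomials in `π` and in the periods of `[o]`; the number of the exceptions does not depend on them.

The starting file `HyperellipticPoints` is the case of the hyperelliptic locus in products of `𝔸_g`, and linear equations.

## The dictionary

Let `G → GL(L)` be a representation over `ℚ` of the group of `S` (of rank `n`), for example the adjoint representation. A point
`x ∈ X` gives a decomposition `L ⊗ ℂ = ⊕ L_x^w` with integral weights `w`, and the filtration with the steps
`F_x = ⊕_(w ≥ p) L_x^w`. The Lie algebra of `G_ℂ` is `𝔭⁻ ⊕ 𝔨 ⊕ 𝔭⁺` at `o`, where `𝔭⁺ = T_o X` is abelian and its elements lower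
the weights by one. The Harish-Chandra coordinate of `z ∈ X` is the element `N ∈ 𝔭⁺` with `F_z = exp(N) F_o` (for all `p`). If
the maps `L_o^p → L_o^(p-1)` given by the elements of `𝔭⁺` determine these elements (as for `p = 1` and abelian varieties, for
`p = 0` and the adjoint representation, and for the line `F_o` and orthogonal groups) then one step `p` suffices. In the file
`U` is a matrix whose columns are a basis of `L ⊗ ℂ` adapted to the decomposition at `o` (`w i` is the weight of the `i`-th
column), the matrices `b_1, …, b_d` are a basis of `T_o X' ⊆ 𝔭⁺ ⊆ End(L ⊗ ℂ)`, adapted to the arithmetic structure, and `y`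
are the coordinates of `N`.

The matrix `P(x)` is the period matrix of the fibre at `x ∈ V` of the variation of Hodge structures over `B` given by `L`: its
columns are the vectors of the periods of a basis of the de Rham realization which is adapted to the Hodge filtration, so
the columns with the indices `i`, `w i ≥ p`, span `F_z` for the point `z ∈ X'` above the point `x`. All points of `X'` have a
Harish-Chandra coordinate in `T_o X'`. By André the identity component of the monodromy group of `B` is the derived group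
of the group of `S'`; it contains `exp(T_o X')`, and it acts on the algebraic relations over `ℂ(x_1, …, x_N)` between the
entries of `P`: this is the condition `large`. Nothing else is used about `B`; it need not be defined over the algebraic
numbers.

## Proof

Let `y_1(x), …, y_d(x)` be the coordinates of the Harish-Chandra coordinate of the point over `x`. They are quotients
`T_l / D` of polynomials in the entries of `P(x)`, where `D` has no zeros on `V`, hence analytic. Let `Q(x, y_1(x), …) = 0` on
`V`. We multiply by a power of `D` and get a polynomial relation between `x` and the entries of `P(x)`. It is preserved by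
the elements `exp(M) exp(- N)`, `M ∈ T_o X'`, of the monodromy group. For `N = N(x)` these elements map `F_z = exp(N) F_o` to
`exp(M) F_o`. So `Q(x, M) = 0` for all `x ∈ V` and all `M`, and `Q = 0`. So the functions `x_1, …, x_N, y_1(x), …, y_d(x)` are
algebraically independent, and we apply the theorem `Pool.Agent.Y890.MV.excT_cov` of the library on the values of such
functions at the points over number fields.
-/

set_option autoImplicit false

open Filter NumberField Matrix

namespace Pool.Agent.Results.MP_1e27bd_ag.AlmostAllPoints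

variable {n d N : ℕ}

/-! ### Points and tangent spaces -/

/-- The tangent vector `∑ y_l b_l`. -/
noncomputable def combine (b : Fin d → Matrix (Fin n) (Fin n) ℂ) (y : Fin d → ℂ) : Matrix (Fin n) (Fin n) ℂ :=
  ∑ l, y l • b l

/-- `U` is a basis adapted to the Hodge decomposition at `o`, where `w` are the weights, the `b l` lower the weights by one,
and the maps from the part of weight `p` to the part of weight `p - 1` determine the combinations of the `b l`. -/
structure IsTangentBasis (w : Fin n → ℤ) (p : ℤ) (U : Matrix (Fin n) (Fin n) ℂ)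
    (b : Fin d → Matrix (Fin n) (Fin n) ℂ) : Prop where
  frame : IsUnit U.det
  lowers : ∀ l i j, (U⁻¹ * b l * U) i j ≠ 0 → w i = w j - 1
  faithful : ∀ y : Fin d → ℂ, (∀ i j, w i = p - 1 → w j = p → (U⁻¹ * combine b y * U) i j = 0) → y = 0

/-- The columns in the step `w ≥ p` of the filtration. -/
def step (w : Fin n → ℤ) (p : ℤ) (P : Matrix (Fin n) (Fin n) ℂ) : Matrix (Fin n) {i : Fin n // p ≤ w i} ℂ :=
  P.submatrix id Subtype.val

/-- `∑ y_l b_l` is the Harish-Chandra coordinate of the point with the period matrix `P`: `F_z = exp(∑ y_l b_l) F_o` (the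
matrix `Y` is then invertible; `∑ y_l b_l` is nilpotent and `IsNilpotent.exp` is the exponential). -/
def IsCoordinate (w : Fin n → ℤ) (p : ℤ) (U : Matrix (Fin n) (Fin n) ℂ) (b : Fin d → Matrix (Fin n) (Fin n) ℂ)
    (P : Matrix (Fin n) (Fin n) ℂ) (y : Fin d → ℂ) : Prop :=
  ∃ Y : Matrix {i : Fin n // p ≤ w i} {i : Fin n // p ≤ w i} ℂ,
    step w p P * Y = step w p (IsNilpotent.exp (combine b y) * U)

/-! ### Subvarieties -/

/-- The value of a polynomial in `N + n²` variables at `x` and the entries of a matrix. -/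
noncomputable def value (F : MvPolynomial (Fin N ⊕ (Fin n × Fin n)) ℂ) (x : Fin N → ℂ) (M : Matrix (Fin n) (Fin n) ℂ) : ℂ :=
  MvPolynomial.eval (Sum.elim x fun q => M q.1 q.2) F

/-- The periods of a subvariety `B` of `S'` over the connected open set `V`. -/
structure IsSubvariety (w : Fin n → ℤ) (p : ℤ) (U : Matrix (Fin n) (Fin n) ℂ) (b : Fin d → Matrix (Fin n) (Fin n) ℂ)
    (V : Set (Fin N → ℂ)) (P : (Fin N → ℂ) → Matrix (Fin n) (Fin n) ℂ) : Prop where
  isOpen : IsOpen V
  isPreconnected : IsPreconnected V
  nonempty : V.Nonempty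
  analytic : ∀ i j, AnalyticOnNhd ℂ (fun x => P x i j) V
  /-- the points have Harish-Chandra coordinates in `T_o X'` -/
  coordinate : ∀ x ∈ V, ∃ y, IsCoordinate w p U b (P x) y
  /-- large monodromy: `exp(T_o X')` preserves all polynomial relations between `x` and the entries of `P(x)` -/
  large : ∀ F : MvPolynomial (Fin N ⊕ (Fin n × Fin n)) ℂ, (∀ x ∈ V, value F x (P x) = 0) →
    ∀ y : Fin d → ℂ, ∀ x ∈ V, value F x (IsNilpotent.exp (combine b y) * P x) = 0

/-! ### Subspaces and relations -/

/-- `W` is given by linear equations whose coefficients are sums `∑ ξ_b c_b`, where the `c_b` are integers of `K` all of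
whose conjugates are at most `B`. -/
def Rational (K : Type) [Field K] [NumberField K] (io : K →+* ℂ) {k : ℕ} (ξ : Fin k → ℂ) (B : ℝ) {Q : Type} [Fintype Q]
    (W : Submodule ℂ (Q → ℂ)) : Prop :=
  ∃ E : Set (Q → Fin k → 𝓞 K), (∀ c ∈ E, ∀ q b (φ : K →+* ℂ), ‖φ (c q b : K)‖ ≤ B) ∧
    ∀ u, u ∈ W ↔ ∀ c ∈ E, ∑ q, (∑ b, ξ b * io (c q b : K)) * u q = 0

/-- The numbers `y` satisfy no relation of degree at most `k` in each of them with coefficients `∑ ξ_b c_b`, where the `c_b`
are integers of `K` all of whose conjugates are at most `B`, except the relations all of whose coefficients vanish. -/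
def NoRelation (K : Type) [Field K] [NumberField K] (io : K →+* ℂ) {k : ℕ} (ξ : Fin k → ℂ) (B : ℝ) (y : Fin d → ℂ) : Prop :=
  ∀ c : (Fin d → Fin (k + 1)) → Fin k → 𝓞 K, (∀ l b (φ : K →+* ℂ), ‖φ (c l b : K)‖ ≤ B) →
    ∑ l, (∑ b, ξ b * io (c l b : K)) * ∏ j, y j ^ (l j : ℕ) = 0 → ∀ l, ∑ b, ξ b * io (c l b : K) = 0

/-- Here `y` are the coordinates of a vector of `T_o X'`, and `T_o X = T_o X' ⊕ ℂ ^ e`: every rational subspace `W` which
contains the vector contains `T_o X'`, and there is no relation between the coordinates `y`. -/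
def Generic (K : Type) [Field K] [NumberField K] (io : K →+* ℂ) {k : ℕ} (ξ : Fin k → ℂ) (B : ℝ) (y : Fin d → ℂ) : Prop :=
  (∀ (e : ℕ) (W : Submodule ℂ (Fin d ⊕ Fin e → ℂ)), Rational K io ξ B W → Sum.elim y 0 ∈ W →
    ∀ u : Fin d → ℂ, Sum.elim u 0 ∈ W) ∧ NoRelation K io ξ B y

/-! ### Exceptional points -/

/-- The elements of `K` which are quotients of two integers all of whose conjugates have absolute value at most `T`. -/
def Height (K : Type) [Field K] [NumberField K] (T : ℝ) : Set K :=
  {x | ∃ a b : 𝓞 K, b ≠ 0 ∧ house (a : K) ≤ T ∧ house (b : K) ≤ T ∧ x = a / b}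

/-- The points with coordinates in `Height K T`, of norm at most `k` and at distance at least `1 / k` from the complement of
`V`, whose Harish-Chandra coordinate is not generic. -/
def Exceptional (w : Fin n → ℤ) (p : ℤ) (U : Matrix (Fin n) (Fin n) ℂ) (b : Fin d → Matrix (Fin n) (Fin n) ℂ)
    (V : Set (Fin N → ℂ)) (P : (Fin N → ℂ) → Matrix (Fin n) (Fin n) ℂ) (K : Type) [Field K] [NumberField K]
    (io : K →+* ℂ) (k : ℕ) (ξ : Fin k → ℂ) (T : ℝ) : Set (Fin N → K) :=
  {x | (∀ j, x j ∈ Height K T) ∧
    (‖fun j => io (x j)‖ ≤ k ∧ Metric.ball (fun j => io (x j)) (k : ℝ)⁻¹ ⊆ V) ∧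
    ∃ y, IsCoordinate w p U b (P fun j => io (x j)) y ∧ ¬ Generic K io ξ (T ^ k) y}

/-- The points of `E` lie on at most `B` hypersurfaces of degree at most `B`. -/
def OnHypersurfaces {K : Type} [Field K] (io : K →+* ℂ) (B : ℝ) (E : Set (Fin N → K)) : Prop :=
  ∃ Φ : Finset (MvPolynomial (Fin N) ℂ), Φ.card ≤ ⌊B⌋₊ ∧ (∀ P ∈ Φ, P ≠ 0 ∧ P.totalDegree ≤ ⌊B⌋₊) ∧
    ∀ x ∈ E, ∃ P ∈ Φ, MvPolynomial.eval (fun j => io (x j)) P = 0

/-- `E` is finite, with at most `B * M ^ (N - 1)` elements, where `M` is the number of the elements of `Height K T`. -/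
def Sparse {K : Type} [Field K] [NumberField K] (T B : ℝ) (E : Set (Fin N → K)) : Prop :=
  E.Finite ∧ (E.ncard : ℝ) ≤ B * ((Height K T).ncard : ℝ) ^ (N - 1)

/-! ### The theorem -/

lemma IsTangentBasis.data {w : Fin n → ℤ} {p : ℤ} {U : Matrix (Fin n) (Fin n) ℂ} {b : Fin d → Matrix (Fin n) (Fin n) ℂ}
    (h : IsTangentBasis w p U b) : Pool.Agent.H39HC.Data w p U b :=
  ⟨h.frame, h.lowers, h.faithful⟩

/-- no relation implies the statement on subspaces -/
lemma generic_of {K : Type} [Field K] [NumberField K] {io : K →+* ℂ} {k : ℕ} {ξ : Fin k → ℂ} {B : ℝ} (hB : 0 ≤ B)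
    {y : Fin d → ℂ} (h : NoRelation K io ξ B y) : Generic K io ξ B y := by
  refine ⟨fun e W hW hy u => ?_, h⟩
  obtain ⟨E, hE, hW⟩ := hW
  rw [hW] at hy ⊢
  intro c hc
  have h1 := hy c hc
  rw [Fintype.sum_sum_type] at h1 ⊢
  simp only [Sum.elim_inl, Sum.elim_inr, Pi.zero_apply, mul_zero, Finset.sum_const_zero, add_zero] at h1 ⊢
  rcases Nat.eq_zero_or_pos k with hk | hk
  · subst hk
    simp
  -- the exponent vectors of the variables
  let m : Fin d → Fin d → Fin (k + 1) := fun q q' => if q' = q then ⟨1, by omega⟩ else 0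
  have hm : Function.Injective m := by
    intro q q' hqq
    by_contra hne
    have h2 := congrFun hqq q
    simp only [m, if_true, if_neg hne] at h2
    have h3 := congrArg Fin.val h2
    simp at h3
  have hprod : ∀ q, ∏ q', y q' ^ (m q q' : ℕ) = y q := by
    intro q
    rw [Finset.prod_eq_single q]
    · simp [m]
    · intro q' _ hq'
      simp [m, hq']
    · intro hq
      exact absurd (Finset.mem_univ q) hq
  classical
  let c' : (Fin d → Fin (k + 1)) → Fin k → 𝓞 K := fun l b => if hl : ∃ q, m q = l then c (Sum.inl hl.choose) b else 0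
  have hc'1 : ∀ q b, c' (m q) b = c (Sum.inl q) b := by
    intro q b
    have hex : ∃ q', m q' = m q := ⟨q, rfl⟩
    have h2 : hex.choose = q := hm hex.choose_spec
    simp only [c']
    rw [dif_pos hex, h2]
  have hc'0 : ∀ l, (¬ ∃ q, m q = l) → ∀ b, c' l b = 0 := by
    intro l hl b
    simp only [c']
    rw [dif_neg hl]
  have hkey := h c' (by
    intro l b φ
    by_cases hl : ∃ q, m q = l
    · obtain ⟨q, rfl⟩ := hl
      rw [hc'1]
      exact hE c hc _ _ _
    · rw [hc'0 l hl]
      simpa using hB) (by
    rw [← h1]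
    symm
    rw [← Finset.sum_subset (Finset.subset_univ (Finset.univ.image m))]
    · rw [Finset.sum_image (fun q _ q' _ hqq => hm hqq)]
      refine Finset.sum_congr rfl fun q _ => ?_
      rw [hprod]
      simp only [hc'1]
    · intro l _ hl
      have hl' : ¬ ∃ q, m q = l := by
        rintro ⟨q, rfl⟩
        exact hl (Finset.mem_image_of_mem m (Finset.mem_univ q))
      simp [hc'0 l hl'])
  refine Finset.sum_eq_zero fun q _ => ?_
  have h2 := hkey (m q)
  simp only [hc'1] at h2
  rw [h2, zero_mul]

/-- a polynomial which vanishes everywhere is zero -/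
theorem coef_zero {κ : Type} [Fintype κ] [DecidableEq κ] {δ : ℕ} (S : (κ → Fin (δ + 1)) → ℂ)
    (h : ∀ W : κ → ℂ, ∑ b, S b * ∏ y, W y ^ (b y : ℕ) = 0) (b : κ → Fin (δ + 1)) : S b = 0 := by
  let p : MvPolynomial κ ℂ := ∑ b : κ → Fin (δ + 1),
    MvPolynomial.monomial (Finsupp.equivFunOnFinite.symm fun v => (b v : ℕ)) (S b)
  have hp : p = 0 := by
    apply MvPolynomial.funext
    intro W
    rw [map_zero, ← h W, map_sum]
    refine Finset.sum_congr rfl fun b _ => ?_
    rw [MvPolynomial.eval_monomial, Finsupp.prod_fintype _ _ (by simp)]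
    rfl
  have h1 := congrArg (MvPolynomial.coeff (Finsupp.equivFunOnFinite.symm fun v => (b v : ℕ))) hp
  rw [MvPolynomial.coeff_zero, MvPolynomial.coeff_sum, Finset.sum_eq_single b] at h1
  · simpa [MvPolynomial.coeff_monomial] using h1
  · intro b' _ hb
    rw [MvPolynomial.coeff_monomial, if_neg]
    intro h3
    apply hb
    funext v
    have h5 := DFunLike.congr_fun h3 v
    simp only [Finsupp.coe_equivFunOnFinite_symm] at h5
    exact Fin.ext h5
  · intro h3
    exact absurd (Finset.mem_univ _) h3

/-- the coordinate functions -/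
theorem exists_functions {w : Fin n → ℤ} {p : ℤ} {U : Matrix (Fin n) (Fin n) ℂ}
    {b : Fin d → Matrix (Fin n) (Fin n) ℂ} {V : Set (Fin N → ℂ)} {P : (Fin N → ℂ) → Matrix (Fin n) (Fin n) ℂ}
    (hb : IsTangentBasis w p U b) (h : IsSubvariety w p U b V P) :
    ∃ f : Fin d → (Fin N → ℂ) → ℂ, (∀ l, AnalyticOnNhd ℂ (f l) V) ∧
      (∀ Q : MvPolynomial (Fin d ⊕ Fin N) ℂ,
        (∀ x ∈ V, MvPolynomial.eval (Sum.elim (fun l => f l x) x) Q = 0) → Q = 0) ∧
      ∀ x ∈ V, ∀ y, IsCoordinate w p U b (P x) y → ∀ l, y l = f l x := by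
  obtain ⟨D, T, hDT⟩ := Pool.Agent.H39HC.exists_fracQ (Fin N) hb.data
  have han : ∀ F : MvPolynomial (Fin N ⊕ (Fin n × Fin n)) ℂ,
      AnalyticOnNhd ℂ (fun x => Pool.Agent.H39HC.evQ F x (P x)) V := by
    intro F x hx
    unfold Pool.Agent.H39HC.evQ
    induction F using MvPolynomial.induction_on with
    | C c => simpa using analyticAt_const
    | add F G hF hG =>
      simp only [map_add]
      exact hF.fun_add hG
    | mul_X F o hF =>
      have h1 : AnalyticAt ℂ (fun x : Fin N → ℂ => (Sum.elim x fun q => P x q.1 q.2) o) x := by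
        rcases o with i | q
        · exact (ContinuousLinearMap.proj (R := ℂ) (φ := fun _ : Fin N => ℂ) i).analyticAt x
        · exact h.analytic q.1 q.2 x hx
      simp only [map_mul, MvPolynomial.eval_X]
      exact hF.fun_mul h1
  have hval : ∀ x ∈ V, ∀ y, IsCoordinate w p U b (P x) y → ∀ l,
      y l = Pool.Agent.H39HC.evQ (T l) x (P x) / Pool.Agent.H39HC.evQ D x (P x) := by
    intro x hx y hy l
    obtain ⟨h1, h2⟩ := hDT x (P x) y hy
    rw [h2 l, mul_div_cancel_left₀ _ h1]
  refine ⟨fun l x => Pool.Agent.H39HC.evQ (T l) x (P x) / Pool.Agent.H39HC.evQ D x (P x), fun l x hx => ?_, ?_, hval⟩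
  · obtain ⟨y, hy⟩ := h.coordinate x hx
    exact (han (T l) x hx).div (han D x hx) (hDT x (P x) y hy).1
  · intro Q hQ
    refine Pool.Agent.H39HC.indepQ hb.data h.isOpen h.nonempty P
      (fun x l => Pool.Agent.H39HC.evQ (T l) x (P x) / Pool.Agent.H39HC.evQ D x (P x)) (fun x hx => ?_) h.large Q hQ
    obtain ⟨y, hy⟩ := h.coordinate x hx
    have h1 : (fun l => Pool.Agent.H39HC.evQ (T l) x (P x) / Pool.Agent.H39HC.evQ D x (P x)) = y := by
      funext l
      exact (hval x hx y hy l).symm
    rw [h1]
    exact hy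

/-- **The theorem.** Let a subvariety of dimension `N ≥ 1` of `S'` be given. There is a monotone function `ω → ∞` such that
for all large `T`, all number fields `K` of degree at most `ω T` with a complex embedding and all complex numbers `ξ_b`: the
exceptional points of height at most `T` lie on at most `T ^ (1 / ω T)` hypersurfaces of degree at most `T ^ (1 / ω T)`, and
there are at most `T ^ (1 / ω T) * M ^ (N - 1)` of them, where `M` is the number of the elements of `Height K T`. -/
theorem result (hN : 0 < N) (w : Fin n → ℤ) (p : ℤ) (U : Matrix (Fin n) (Fin n) ℂ)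
    (b : Fin d → Matrix (Fin n) (Fin n) ℂ) (V : Set (Fin N → ℂ)) (P : (Fin N → ℂ) → Matrix (Fin n) (Fin n) ℂ)
    (hb : IsTangentBasis w p U b) (hP : IsSubvariety w p U b V P) :
    ∃ (ω : ℝ → ℕ) (T₀ : ℝ), Tendsto ω atTop atTop ∧ Monotone ω ∧ ∀ T, T₀ ≤ T → 0 < ω T ∧
      ∀ (K : Type) [Field K] [NumberField K], Module.finrank ℚ K ≤ ω T → ∀ (io : K →+* ℂ) (ξ : Fin (ω T) → ℂ),
        OnHypersurfaces io (T ^ ((ω T : ℝ)⁻¹)) (Exceptional w p U b V P K io (ω T) ξ T) ∧
        Sparse T (T ^ ((ω T : ℝ)⁻¹)) (Exceptional w p U b V P K io (ω T) ξ T) := by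
  classical
  have : Nonempty (Fin N) := ⟨⟨0, hN⟩⟩
  obtain ⟨f, hfa, hfi, hfv⟩ := exists_functions hb hP
  obtain ⟨ω, T₀, h1, h2, h3⟩ := Pool.Agent.Y890.MV.omega_gen (X := Fin N) (fun k => Fin k → ℂ)
    (fun k K _ _ io ξ T => {x | 0 ≤ T ∧ x ∈ Exceptional w p U b V P K io k ξ T})
    (fun k K _ _ io ξ T s hs => hs.2.1) (by
      intro k ε hε
      rcases Nat.eq_zero_or_pos k with hk | hk
      · refine ⟨0, 0, 2, le_rfl, le_rfl, ?_⟩
        intro K _ _ hK
        have h1 : 0 < Module.finrank ℚ K := Module.finrank_pos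
        omega
      obtain ⟨D, C, T₀, hC, hT₀, H⟩ := Pool.Agent.Y890.MV.excT_cov hP.isPreconnected hP.isOpen hP.nonempty hfa
        (Pool.Agent.H39HC.torM_univ f hfi) (Pool.Agent.Y890.MV.InnerM V k) (Pool.Agent.Y890.MV.innerM_compact _ _)
        (Pool.Agent.Y890.MV.innerM_sub _ hk) k (Fin k) k (k : ℝ) ε hε
      refine ⟨D, C, T₀, hC, hT₀, fun K _ _ hK io ξ T hT =>
        (H K hK io ξ T hT).mono le_rfl le_rfl (Set.image_mono ?_)⟩
      rintro x ⟨hT0, hx1, hx2, y, hy, hno⟩
      have hxV : (fun j => io (x j)) ∈ V := hx2.2 (Metric.mem_ball_self (by positivity))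
      refine ⟨hx1, hx2, ?_⟩
      have hno' : ¬ NoRelation K io ξ (T ^ k) y := fun h => hno (generic_of (pow_nonneg hT0 k) h)
      unfold NoRelation at hno'
      push Not at hno'
      obtain ⟨c, hc1, hc2, l, hl⟩ := hno'
      refine ⟨c, fun l i φ => ?_, ?_, fun hall => ?_⟩
      · rw [Real.rpow_natCast]
        exact hc1 l i φ
      · rw [← hc2]
        refine Finset.sum_congr rfl fun l _ => ?_
        congr 1
        refine Finset.prod_congr rfl fun j _ => ?_
        rw [hfv _ hxV y hy j]
      · exact hl (coef_zero (fun l => ∑ i, ξ i * io (c l i : K)) (fun W => hall W (Set.mem_univ _)) l))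
  refine ⟨ω, max T₀ 0, h1, h2, fun T hT => ?_⟩
  have hT0 : T₀ ≤ T := (le_max_left _ _).trans hT
  have hTp : 0 ≤ T := (le_max_right _ _).trans hT
  refine ⟨(h3 T hT0).1, fun K _ _ hK io ξ => ?_⟩
  obtain ⟨⟨Φ, hc, hd, hz⟩, h5, h6⟩ := (h3 T hT0).2 K hK io ξ
  have heq : {x | 0 ≤ T ∧ x ∈ Exceptional w p U b V P K io (ω T) ξ T} = Exceptional w p U b V P K io (ω T) ξ T := by
    ext x
    exact ⟨fun h => h.2, fun h => ⟨hTp, h⟩⟩
  rw [heq] at h5 h6
  refine ⟨⟨Φ, hc, hd, fun x hx => hz _ ⟨x, ⟨hTp, hx⟩, rfl⟩⟩, h5, ?_⟩
  rw [Fintype.card_fin] at h6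
  exact h6

end Pool.Agent.Results.MP_1e27bd_ag.AlmostAllPoints
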