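import Pool.Agent.H61HS.Fam

/-!
# The hyperbolic analytic subspace conjecture for almost all integral points of curves in Shimura varieties

Let `S' ⊆ S` be a Shimura subvariety through the special point `[o]` (for example `S' = S`), with the domains `X' ⊆ X`, and
let a curve in `S'` be given, over which the variation of Hodge structures given by some faithful representation of the
group of `S` has a period matrix of G-functions and large monodromy in `S'`. We prove for almost all integral points `[z]` of
the curve (and for `k`-tuples of such points, in `S ^ k`): *every* subspace `V ⊆ T_o X` which contains the Harish-Chandra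
coordinate of `z` and is rational for the arithmetic structure, over some number field of degree at most `D`, contains the
bi-`ℚ̄`-subspace `V' = T_o X'`. So the answer to Q1 is yes for these `z` and `V`, and `V'` is the tangent space of a Shimura
subvariety through `[o]` and `[z]`, as in Q2. There is no bound for the height of `V`. More generally the coordinates of `z`
satisfy no polynomial relation of degree at most `δ` over number fields of degree at most `D`. The theorem holds for all
points `o ∈ X'` and all `ℚ̄`-structures, with the same constants.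

## The dictionary

Let `G → GL(L)` be a representation over `ℚ` of the group of `S` (of rank `n`), for example the adjoint representation. A point
`x ∈ X` gives a decomposition `L ⊗ ℂ = ⊕ L_x^w` with integral weights `w`, and the filtration with the steps
`F_x = ⊕_(w ≥ p) L_x^w`. The Lie algebra of `G_ℂ` is `𝔭⁻ ⊕ 𝔨 ⊕ 𝔭⁺` at `o`, where `𝔭⁺ = T_o X` is abelian and its elements lower the
weights by one. The Harish-Chandra coordinate of `z ∈ X` is the element `N ∈ 𝔭⁺` with `F_z = exp(N) F_o` (for all `p`). If the
maps `L_o^p → L_o^(p-1)` given by the elements of `𝔭⁺` determine these elements (as for `p = 1` and abelian varieties, for `p = 0`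
and the adjoint representation, and for the line `F_o` and orthogonal groups) then one step `p` suffices. In the file `U` is a
matrix whose columns are a basis of `L ⊗ ℂ` adapted to the decomposition at `o` (`w i` is the weight of the `i`-th column),
the matrices `b_1, …, b_d` are a basis of `T_o X' ⊆ 𝔭⁺ ⊆ End(L ⊗ ℂ)`, and `y` are the coordinates of `N`.

For a variation of Hodge structures over a curve choose a basis of the de Rham realization adapted to the
Hodge filtration. If it is regular at `z = 0`, the periods are `Ω Z(z)`, with the fundamental matrix `Z`, `Z(0) = 1` (or any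
other invertible `Z(0)` over `ℚ`), of the Gauss-Manin system `f Z' = Z A`, and with the period matrix `Ω` of the fibre at
zero; the columns with the indices `i`, `w i ≥ p`, span `F`. The points `1 / m` of the curve, `m ∈ ℕ` large, are our integral
points. By André the identity component of the monodromy group is the derived group of the group of `S'` if the curve is not
contained in a proper weakly special subvariety of `S'`; this contains the group `exp(T_o X')` for all `o ∈ X'`. We
need only that the elements of `exp(T_o X')` are in the differential Galois group of the system.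

## Proof

Let `∑ c_l y_l = 0` with `c_l` in a number field, or more generally `Q(y) = 0`. The product of the conjugates of `Q` has
rational coefficients. If we multiply by a power of the determinants of the components of the periods in `F_o` we get a
polynomial relation between the periods, whose coefficients are in a `ℚ`-space of bounded dimension which depends only on `o`
and the basis `b`. By the starting theorem `MP_f11a48_ag.GeneralFamilies` it is the specialisation of a functional relation,
apart from few integers. This is preserved by the elements `exp(M) exp(- N)`, `M ∈ T_o X'`, which map `F_z = exp(N) F_o` to `exp(M) F_o`. So the product of the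
conjugates of `Q` vanishes for all `M ∈ T_o X'`, and `Q = 0`.
-/

set_option autoImplicit false

open PowerSeries Polynomial Matrix

namespace Pool.Agent.Results.MP_1e27bd_ag.CurvesInShimuraVarieties

/-! ### Subspaces over number fields -/

/-- `V` is given by linear equations with coefficients in `K`. -/
def Rational {σ : Type} [Fintype σ] (K : IntermediateField ℚ ℂ) (V : Submodule ℂ (σ → ℂ)) : Prop :=
  ∃ E : Set (σ → K), ∀ u, u ∈ V ↔ ∀ c ∈ E, ∑ l, (c l : ℂ) * u l = 0

/-- Here `y` are the coordinates of a vector of `T_o X' = ℂ ^ d`, and `T_o X = ℂ ^ d ⊕ ℂ ^ e`. For all number fields `K` of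
degree at most `D`: every subspace `V` of `T_o X` rational over `K` which contains the vector contains `T_o X'`, and `y` is
not a zero of a nonzero polynomial of degree at most `δ` over `K`. -/
def Generic {d : ℕ} (D δ : ℕ) (y : Fin d → ℂ) : Prop :=
  ∀ K : IntermediateField ℚ ℂ, FiniteDimensional ℚ K → Module.finrank ℚ K ≤ D →
    (∀ (e : ℕ) (V : Submodule ℂ (Fin d ⊕ Fin e → ℂ)), Rational K V → Sum.elim y 0 ∈ V →
      ∀ u : Fin d → ℂ, Sum.elim u 0 ∈ V) ∧
    ∀ Q : MvPolynomial (Fin d) K, Q ≠ 0 → Q.totalDegree ≤ δ → MvPolynomial.aeval y Q ≠ 0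

/-! ### Points and tangent spaces -/

variable {n k d : ℕ}

/-- The combination `N = ∑ y_l b_l` of the tangent vectors `b_l = (b_(l,1), …, b_(l,k))` at `o = (o_1, …, o_k)`. -/
noncomputable def combine (b : Fin d → Fin k → Matrix (Fin n) (Fin n) ℂ) (y : Fin d → ℂ) (s : Fin k) :
    Matrix (Fin n) (Fin n) ℂ := ∑ l, y l • b l s

/-- `U s` is a basis adapted to the Hodge decomposition at `o_s`, where `w` are the weights, the `b l` lower the weights by one,
and the maps from the part of weight `p` to the part of weight `p - 1` determine the combinations of the `b l`. -/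
structure IsTangentBasis (w : Fin n → ℤ) (p : ℤ) (U : Fin k → Matrix (Fin n) (Fin n) ℂ)
    (b : Fin d → Fin k → Matrix (Fin n) (Fin n) ℂ) : Prop where
  frame : ∀ s, IsUnit (U s).det
  lowers : ∀ l s i j, ((U s)⁻¹ * b l s * U s) i j ≠ 0 → w i = w j - 1
  faithful : ∀ y : Fin d → ℂ, (∀ s i j, w i = p - 1 → w j = p → ((U s)⁻¹ * combine b y s * U s) i j = 0) → y = 0

/-- The columns in the step `w ≥ p` of the filtration. -/
def step (w : Fin n → ℤ) (p : ℤ) (P : Matrix (Fin n) (Fin n) ℂ) : Matrix (Fin n) {i : Fin n // p ≤ w i} ℂ :=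
  P.submatrix id Subtype.val

/-- `N = ∑ y_l b_l` is the Harish-Chandra coordinate of the point with the period matrices `P s`:
`F_z = exp(N) F_o` (the matrices `Y` are then invertible; `N` is nilpotent and `IsNilpotent.exp` is the exponential). -/
def IsCoordinate (w : Fin n → ℤ) (p : ℤ) (U : Fin k → Matrix (Fin n) (Fin n) ℂ)
    (b : Fin d → Fin k → Matrix (Fin n) (Fin n) ℂ) (P : Fin k → Matrix (Fin n) (Fin n) ℂ) (y : Fin d → ℂ) : Prop :=
  ∀ s, ∃ Y : Matrix {i : Fin n // p ≤ w i} {i : Fin n // p ≤ w i} ℂ,
    step w p (P s) * Y = step w p (IsNilpotent.exp (combine b y s) * U s)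

/-! ### Families -/

/-- The arithmetic conditions in the definition of a G-function, for a power series with rational coefficients: geometric
growth of the coefficients and of their common denominators. -/
def GCond (g : ℚ⟦X⟧) : Prop := ∃ C : ℝ, (∀ m, |((coeff m g : ℚ) : ℝ)| ≤ C ^ (m + 1)) ∧
  ∀ m, ∃ d : ℕ, 0 < d ∧ (d : ℝ) ≤ C ^ (m + 1) ∧ ∀ j ≤ m, ∃ a : ℤ, (d : ℚ) * coeff j g = a

/-- `Z` is a fundamental matrix, regular at `0`, of the system `f Z' = Z A` over `ℚ(z)`, and `Z` and `W = Z⁻¹` are
matrices of G-functions. -/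
structure IsFamily (f : ℚ[X]) (A : Matrix (Fin n) (Fin n) ℚ[X]) (Z W : Matrix (Fin n) (Fin n) ℚ⟦X⟧) : Prop where
  regular : f.coeff 0 ≠ 0
  system : ∀ i j, (f : ℚ⟦X⟧) * PowerSeries.derivative ℚ (Z i j) = ∑ k, Z i k * (A k j : ℚ⟦X⟧)
  inverse : W * Z = 1
  gZ : ∀ i j, GCond (Z i j)
  gW : ∀ i j, GCond (W i j)

/-- The period matrix `Ω Z(1 / x)` of the fibre at `z = 1 / x`. -/
noncomputable def periodMatrix (Ω : Matrix (Fin n) (Fin n) ℂ) (Z : Matrix (Fin n) (Fin n) ℚ⟦X⟧) (x : ℝ) :
    Matrix (Fin n) (Fin n) ℂ :=
  Ω * Matrix.of fun a j => ((∑' m : ℕ, ((coeff m (Z a j) : ℚ) : ℝ) * (1 / x) ^ m : ℝ) : ℂ)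

/-- The value of a polynomial in `z` and `n²` further variables at `z` and the entries of `Y(z)`. -/
noncomputable def value (F : MvPolynomial (Option (Fin n × Fin n)) ℂ) (Y : Matrix (Fin n) (Fin n) ℂ⟦X⟧) : ℂ⟦X⟧ :=
  MvPolynomial.aeval (fun o : Option (Fin n × Fin n) => o.elim PowerSeries.X fun q => Y q.1 q.2) F

/-- The differential Galois group of the system with the fundamental matrix `Y = Ω Z`: the matrices `g` such that all
polynomial relations between `z` and the entries of `Y` hold for `g Y`. -/
def Galois (Ω : Matrix (Fin n) (Fin n) ℂ) (Z : Matrix (Fin n) (Fin n) ℚ⟦X⟧) : Set (Matrix (Fin n) (Fin n) ℂ) :=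
  {g | ∀ F : MvPolynomial (Option (Fin n × Fin n)) ℂ,
    value F (Ω.map PowerSeries.C * Z.map (PowerSeries.map (algebraMap ℚ ℂ))) = 0 →
    value F (g.map PowerSeries.C * (Ω.map PowerSeries.C * Z.map (PowerSeries.map (algebraMap ℚ ℂ)))) = 0}

/-- Large monodromy: the differential Galois group contains `exp(T_(o_s) X')` for all `s`. -/
def Large (Ω : Matrix (Fin n) (Fin n) ℂ) (Z : Matrix (Fin n) (Fin n) ℚ⟦X⟧)
    (b : Fin d → Fin k → Matrix (Fin n) (Fin n) ℂ) : Prop :=
  ∀ y s, IsNilpotent.exp (combine b y s) ∈ Galois Ω Z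

/-! ### The theorem -/

lemma generic_of {D δ : ℕ} {y : Fin d → ℂ} (h : Pool.Agent.H61HS.NoRel (D * max δ 1) y) : Generic D δ y := by
  intro K hK hD
  refine ⟨fun e V hV hy u => ?_, fun Q hQ hδ => h.field K hK hD Q hQ (hδ.trans (le_max_left _ _))⟩
  obtain ⟨E, hE⟩ := hV
  rw [hE] at hy ⊢
  intro c hc
  have h1 := hy c hc
  rw [Fintype.sum_sum_type] at h1 ⊢
  simp only [Sum.elim_inl, Sum.elim_inr, Pi.zero_apply, mul_zero, Finset.sum_const_zero, add_zero] at h1 ⊢
  have h2 := h.linear (le_max_right _ _) K hK hD (fun l => c (Sum.inl l)) h1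
  refine Finset.sum_eq_zero fun l _ => ?_
  have h3 : c (Sum.inl l) = 0 := congrFun h2 l
  rw [h3]
  simp

lemma periodMatrix_eq {k : ℕ} (Ω : Matrix (Fin n) (Fin n) ℂ) (Z : Matrix (Fin n) (Fin n) ℚ⟦X⟧) (m : Fin k → ℕ) :
    (fun s => periodMatrix Ω Z (m s)) = Pool.Agent.H61HS.pmats Ω Z m := by
  funext s
  ext i j
  unfold periodMatrix Pool.Agent.H61HS.pmats
  rw [Matrix.mul_apply]
  rfl

open Classical in
/-- **The theorem.** Let a family be given. There are `x₀` and `G` such that for all `k`, `d`, `D`, `δ` there are `M`, `c > 0`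
and `C` with the following property for all `Ω`, all points `o = (o_1, …, o_k)` and all bases `b` of the tangent space
`T_o X'` with large monodromy. In every window `[N, N + N ^ c]`, `N > x₀`, all Harish-Chandra coordinates of the points given by
`k` members at integers `m_1, …, m_k` of the window with `|m_i - m_j| ≥ G`, apart from at most `M` integers, are generic; and for
all but `C T ^ (k - c)` of the `k`-tuples of integers in `(x₀, T]` all Harish-Chandra coordinates of the point are generic. -/
theorem result (n : ℕ) (f : ℚ[X]) (A : Matrix (Fin n) (Fin n) ℚ[X]) (Z W : Matrix (Fin n) (Fin n) ℚ⟦X⟧)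
    (hfam : IsFamily f A Z W) :
    ∃ x₀ G : ℕ, ∀ k d D δ : ℕ,
      (∃ (M : ℕ) (c : ℝ), 0 < c ∧ ∀ (Ω : Matrix (Fin n) (Fin n) ℂ) (w : Fin n → ℤ) (p : ℤ)
        (U : Fin k → Matrix (Fin n) (Fin n) ℂ) (b : Fin d → Fin k → Matrix (Fin n) (Fin n) ℂ), IsUnit Ω →
        IsTangentBasis w p U b → Large Ω Z b → ∀ N : ℕ, x₀ < N → ∃ E : Finset ℕ, E.card ≤ M ∧
        ∀ m : Fin k → ℕ, (∀ i j, i ≠ j → (G : ℤ) ≤ |(m i : ℤ) - m j|) →
          (∀ i, N ≤ m i ∧ (m i : ℝ) ≤ N + (N : ℝ) ^ c ∧ m i ∉ E) →
          ∀ y, IsCoordinate w p U b (fun s => periodMatrix Ω Z (m s)) y → Generic D δ y) ∧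
      ∃ c C : ℝ, 0 < c ∧ ∀ (Ω : Matrix (Fin n) (Fin n) ℂ) (w : Fin n → ℤ) (p : ℤ)
        (U : Fin k → Matrix (Fin n) (Fin n) ℂ) (b : Fin d → Fin k → Matrix (Fin n) (Fin n) ℂ), IsUnit Ω →
        IsTangentBasis w p U b → Large Ω Z b → ∀ T : ℕ, 1 ≤ T →
        (((Fintype.piFinset fun _ : Fin k => Finset.Ioc x₀ T).filter fun m =>
          ∃ y, IsCoordinate w p U b (fun s => periodMatrix Ω Z (m s)) y ∧ ¬ Generic D δ y).card : ℝ) ≤
          C * (T : ℝ) ^ ((k : ℝ) - c) := by
  obtain ⟨x₀, G, hmain⟩ := Pool.Agent.H61HS.families n f A Z W hfam.regular hfam.system hfam.inverse hfam.gZ hfam.gW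
  refine ⟨x₀, G, fun k d D δ => ?_⟩
  obtain ⟨⟨M, c, hc, hwin⟩, c', hc', C', hcount⟩ := hmain k d (D * max δ 1)
  refine ⟨⟨M, c, hc, fun Ω w p U b hΩ hb hL N hN => ?_⟩, c', C', hc', fun Ω w p U b hΩ hb hL T hT => ?_⟩
  · obtain ⟨E, hE, hE'⟩ := hwin Ω w p U b hΩ hb.frame hb.lowers hb.faithful hL N hN
    refine ⟨E, hE, fun m hsep hm y hy => generic_of (hE' m hsep hm y ?_)⟩
    rw [← periodMatrix_eq]
    exact hy
  · refine le_trans (Nat.cast_le.2 (Finset.card_le_card fun m hm => ?_))
      (hcount Ω w p U b hΩ hb.frame hb.lowers hb.faithful hL T hT)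
    obtain ⟨hm1, y, hy, hno⟩ := Finset.mem_filter.1 hm
    refine Finset.mem_filter.2 ⟨hm1, y, ?_, fun h => hno (generic_of h)⟩
    rw [← periodMatrix_eq]
    exact hy

end Pool.Agent.Results.MP_1e27bd_ag.CurvesInShimuraVarieties
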