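import Pool.Agent.H61HS.Hyp

/-!
# The hyperbolic analytic subspace conjecture for almost all members of one-parameter families of hyperelliptic curves

Let `S' = 𝔸_g ^ k`, and let `S' → S` be a Shimura subvariety (for example `S = S'`, or `S = 𝔸_(gk)` with the products of abelian
varieties), `o` a special point of the domain `X'` of `S'` and `T_o X' ⊆ T_o X`. Let `f_1, …, f_k` be monic polynomials of
degree `2 g` with rational coefficients and distinct real roots different from zero, and consider the points `[z]` of `S'`
given by the Jacobians of the curves `y² = f_s(x) (x - 1 / t_s)` of genus `g`, where the `t_s` are positive integers. The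
theorem says: for all but `M T ^ (k - c)` of the `T ^ k` tuples with `t_s ≤ T` *every* subspace `V ⊆ T_o X` which contains
the Harish-Chandra coordinate of `z` and is rational for the arithmetic structure, over some number field of degree at most
`D`, contains the bi-`ℚ̄`-subspace `V' = T_o X'`. So the answer to Q1 is yes for these `z` and `V`, and `V'` is the tangent
space of the Shimura subvariety `S'` through `[o]` and `[z]`, as in Q2. There is no bound for the height of `V`. More
generally the coordinates of `z` satisfy no polynomial relation of degree at most `δ` over number fields of degree at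
most `D`. Here `c > 0` and `M` do not depend on `o` and the `ℚ̄`-structure.

The classes in `H¹(C, ℂ)` are given by the vectors of their integrals over the loops around the segments between
consecutive branch points. The points of the Siegel space are the Hodge filtrations `F¹ ⊆ H¹(C, ℂ) = ℂ ^ {2g}`. A point `o` is
given by a matrix `W` whose columns are a basis of `F¹_o`; then these columns and the complex conjugate columns are a basis of
`ℂ ^ {2g}` (`IsPoint`; we need no other property of `o`). The tangent space is the abelian Lie algebra `𝔭⁺` of the elements `N` of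
the Lie algebra of the symplectic group which map `F¹_o` to its complex conjugate and annihilate the complex conjugate, and the
Harish-Chandra coordinate of `z` is the `N ∈ 𝔭⁺` with `F¹_z = (1 + N) F¹_o = exp(N) F¹_o`.

Proof. Let `∑ c_l y_l = 0` with `c_l` in a number field, or more generally `Q(y) = 0`. The product of the conjugates of `Q` has
rational coefficients. If we multiply by a power of the determinants of the components of the periods in `F_o` we get a
polynomial relation between the periods, whose coefficients are in a `ℚ`-space of bounded dimension which depends only on `o`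
and the basis `b`. By the theorem of helper118 (`Pool/Agent/Y118/HG`) on hyperelliptic families (it uses the monodromy theorem
of A'Campo) it holds on the whole torsor of the Riemann-Legendre relations, apart from the exceptional tuples. The
elements `exp(M) exp(- N)`, `M ∈ T_o X'`, act on the torsor and map `F_z = exp(N) F_o` to `exp(M) F_o`. So the product of the
conjugates of `Q` vanishes for all `M ∈ T_o X'`, and `Q = 0`.
-/

set_option autoImplicit false

open Polynomial Matrix

namespace Pool.Agent.Results.MP_1e27bd_ag.OneParameterHyperelliptic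

/-! ### Subspaces over number fields -/

/-- `V` is given by linear equations with coefficients in `K`. -/
def Rational {σ : Type} [Fintype σ] (K : IntermediateField ℚ ℂ) (V : Submodule ℂ (σ → ℂ)) : Prop :=
  ∃ E : Set (σ → K), ∀ u, u ∈ V ↔ ∀ c ∈ E, ∑ l, (c l : ℂ) * u l = 0

/-- Here `y` are the coordinates of a vector of `T_o X' = ℂ ^ d`, and `T_o X = ℂ ^ d ⊕ ℂ ^ e`. For all number fields `K` of
degree at most `D`: every subspace `V` of `T_o X` rational over `K` which contains the vector contains `T_o X'`, and `y` is
not a zero of a nonzero polynomial of degree at most `δ` over `K`. -/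
def Generic {d : ℕ} (D δ : ℕ) (y : Fin d → ℂ) : Prop :=
  ∀ K : IntermediateField ℚ ℂ, FiniteDimensional ℚ K → Module.finrank ℚ K ≤ D →
    (∀ (e : ℕ) (V : Submodule ℂ (Fin d ⊕ Fin e → ℂ)), Rational K V → Sum.elim y 0 ∈ V →
      ∀ u : Fin d → ℂ, Sum.elim u 0 ∈ V) ∧
    ∀ Q : MvPolynomial (Fin d) K, Q ≠ 0 → Q.totalDegree ≤ δ → MvPolynomial.aeval y Q ≠ 0

/-! ### Hyperelliptic curves and Siegel spaces -/

variable {k d : ℕ}

/-- The combination `N = ∑ y_l b_l` of the tangent vectors `b_l = (b_(l,1), …, b_(l,k))` at `o = (o_1, …, o_k)`. -/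
noncomputable def combine {n : ℕ} (b : Fin d → Fin k → Matrix (Fin n) (Fin n) ℂ) (y : Fin d → ℂ) (s : Fin k) :
    Matrix (Fin n) (Fin n) ℂ := ∑ l, y l • b l s

/-- The branch points: `t` inserted at place `m` in the sequence of the `a i`. -/
noncomputable def branch {r : ℕ} (a : Fin r → ℝ) (m : Fin (r + 1)) (t : ℝ) : Fin (r + 1) → ℝ :=
  Fin.insertNth (α := fun _ => ℝ) m t a

/-- The periods `∮ x ^ j dx / y`, `j < g`, of the differentials of the first kind of the curve `y² = ∏ (x - e i)` of genus `g`,
over the loops around the segments `[e l, e (l + 1)]`, `l < 2 g`, that is twice the integrals over the segments (principal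
branch of the square root). -/
noncomputable def firstKind {g : ℕ} (e : Fin (2 * g + 1) → ℝ) : Matrix (Fin (2 * g)) (Fin g) ℂ :=
  Matrix.of fun l j =>
    2 * ∫ x in (e l.castSucc)..(e l.succ), (x : ℂ) ^ (j : ℕ) / (((∏ i, (x - e i) : ℝ) : ℂ) ^ (1 / 2 : ℂ))

/-- The intersection matrix of these loops (up to a common sign): `(-1) ^ r` at `(r, s)`, `|r - s| = 1`. -/
def loops (g : ℕ) : Matrix (Fin (2 * g)) (Fin (2 * g)) ℂ :=
  Matrix.of fun r s => if (r : ℕ) = s + 1 ∨ (s : ℕ) = r + 1 then (-1) ^ (r : ℕ) else 0

/-- The complex conjugate matrix. -/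
noncomputable def conj {r s : Type} (W : Matrix r s ℂ) : Matrix r s ℂ := W.map (starRingEnd ℂ)

/-- The columns of `W` are the basis of a subspace `F¹` such that `H¹ = ℂ ^ {2g}` is the direct sum of `F¹` and of its
complex conjugate. All points of the Siegel space are given by such matrices. -/
def IsPoint {g : ℕ} (W : Matrix (Fin (2 * g)) (Fin g) ℂ) : Prop :=
  LinearIndependent ℂ (Sum.elim (fun (j : Fin g) (i : Fin (2 * g)) => W i j) (fun j i => conj W i j))

/-- The tangent vectors at the point `o` given by `W`: the elements `N` of the Lie algebra of the symplectic group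
which map `F¹_o` to its complex conjugate and annihilate the complex conjugate. -/
structure IsTangent {g : ℕ} (W : Matrix (Fin (2 * g)) (Fin g) ℂ) (N : Matrix (Fin (2 * g)) (Fin (2 * g)) ℂ) :
    Prop where
  kills : N * conj W = 0
  maps : ∃ C : Matrix (Fin g) (Fin g) ℂ, N * W = conj W * C
  lie : N * loops g + loops g * N.transpose = 0

/-- `b` is a basis of the tangent space at `o` of the product of `k` Siegel spaces. -/
def IsSiegelBasis {g : ℕ} (W : Fin k → Matrix (Fin (2 * g)) (Fin g) ℂ)
    (b : Fin d → Fin k → Matrix (Fin (2 * g)) (Fin (2 * g)) ℂ) : Prop :=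
  (∀ y s, IsTangent (W s) (combine b y s)) ∧
    ∀ N : Fin k → Matrix (Fin (2 * g)) (Fin (2 * g)) ℂ, (∀ s, IsTangent (W s) (N s)) → ∃! y, combine b y = N

/-- `N = ∑ y_l b_l` is the Harish-Chandra coordinate of the point of the product of `k` Siegel spaces given by the curves with
the branch points `e s`: `F¹_z = (1 + N) F¹_o = exp(N) F¹_o`. -/
def IsSiegelCoordinate {g : ℕ} (W : Fin k → Matrix (Fin (2 * g)) (Fin g) ℂ)
    (b : Fin d → Fin k → Matrix (Fin (2 * g)) (Fin (2 * g)) ℂ) (e : Fin k → Fin (2 * g + 1) → ℝ) (y : Fin d → ℂ) :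
    Prop :=
  ∀ s, ∃ Y : Matrix (Fin g) (Fin g) ℂ, firstKind (e s) * Y = (1 + combine b y s) * W s

/-! ### The theorem -/

lemma generic_of {D δ : ℕ} {y : Fin d → ℂ} (h : Pool.Agent.H61HS.NoRel (D * max δ 1) y) : Generic D δ y := by
  intro K hK hD
  refine ⟨fun e V hV hy u => ?_, fun Q hQ hδ => h.field K hK hD Q hQ (hδ.trans (le_max_left _ _))⟩
  obtain ⟨E, hE⟩ := hV
  rw [hE] at hy ⊢
  intro c hc
  have h1 := hy c hc
  rw [Fintype.sum_sum_type] at h1 ⊢
  simp only [Sum.elim_inl, Sum.elim_inr, Pi.zero_apply, mul_zero, Finset.sum_const_zero, add_zero] at h1 ⊢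
  have h2 := h.linear (le_max_right _ _) K hK hD (fun l => c (Sum.inl l)) h1
  refine Finset.sum_eq_zero fun l _ => ?_
  have h3 : c (Sum.inl l) = 0 := congrFun h2 l
  rw [h3]
  simp

/-- **The theorem.** For the `k`-tuples of curves `y² = f_s(x) (x - 1 / t_s)` of genus `g`, where `f_s ∈ ℚ[x]` is monic of
degree `2 g` with distinct real roots `a_(s,i)` which are not zero (`m_s` is the number of the negative roots), there are
`c > 0` and `M` such that for all points `o` of the product of `k` Siegel spaces, all bases `b` of the tangent space at `o`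
and all `T ≥ 1` the Harish-Chandra coordinate of the point is generic for all but `M T ^ (k - c)` of the tuples of
integers `1 ≤ t_s ≤ T`. (And then `1 / t_s` is not separated from zero by a root of `f_s`.) -/
theorem result (g k : ℕ) (a : Fin k → Fin (2 * g) → ℝ) (f : Fin k → ℚ[X]) (m : Fin k → Fin (2 * g + 1))
    (hf : ∀ s, (f s).map (algebraMap ℚ ℝ) = ∏ i, (Polynomial.X - Polynomial.C (a s i)))
    (h0 : ∀ s, StrictMono (branch (a s) (m s) 0)) (d D δ : ℕ) :
    ∃ c M : ℝ, 0 < c ∧
      ∀ (W : Fin k → Matrix (Fin (2 * g)) (Fin g) ℂ) (b : Fin d → Fin k → Matrix (Fin (2 * g)) (Fin (2 * g)) ℂ),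
        (∀ s, IsPoint (W s)) → IsSiegelBasis W b → ∀ T : ℕ, 1 ≤ T →
        ∃ E : Finset (Fin k → ℕ), (E.card : ℝ) ≤ M * (T : ℝ) ^ ((k : ℝ) - c) ∧
        ∀ t : Fin k → ℕ, (∀ s, 1 ≤ t s ∧ t s ≤ T) → t ∉ E →
          (∀ s, StrictMono (branch (a s) (m s) (1 / (t s : ℝ)))) ∧
          ∀ y, IsSiegelCoordinate W b (fun s => branch (a s) (m s) (1 / (t s : ℝ))) y → Generic D δ y := by
  obtain ⟨c, M, hc, hmain⟩ := Pool.Agent.H61HS.hyper g k a f m hf h0 d (D * max δ 1)
  refine ⟨c, M, hc, fun W b hW hb T hT => ?_⟩
  have hjm : Pool.Agent.Y118.HP.jm ℂ (2 * g) = -loops g := by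
    ext r s
    unfold Pool.Agent.Y118.HP.jm loops
    rw [Matrix.neg_apply, Matrix.of_apply, Matrix.of_apply]
    split_ifs <;> simp
  obtain ⟨E, hE, hE'⟩ := hmain W (fun s => conj (W s)) b
    (fun s => Pool.Agent.N208.HA.exists_dec _ _ (hW s))
    (fun y s => by
      have h1 := hb.1 y s
      refine ⟨h1.kills, h1.maps, ?_⟩
      have h2 : combine b y s * loops g + loops g * (combine b y s)ᵀ = 0 := h1.lie
      rw [hjm, Matrix.mul_neg, Matrix.neg_mul, ← neg_add]
      show -(combine b y s * loops g + loops g * (combine b y s)ᵀ) = 0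
      rw [h2, neg_zero])
    (fun y hy => by
      obtain ⟨u, -, hu⟩ := hb.2 (combine b y) (hb.1 y)
      have h1 : combine b (0 : Fin d → ℂ) = combine b y := by
        funext s
        have h2 : combine b y s = 0 := hy s
        rw [h2]
        unfold combine
        exact Finset.sum_eq_zero fun l _ => by rw [Pi.zero_apply, zero_smul]
      rw [hu y rfl, ← hu 0 h1]) T hT
  refine ⟨E, hE, fun t ht htE => ?_⟩
  obtain ⟨h1, h2⟩ := hE' t ht htE
  refine ⟨h1, fun y hy => generic_of (h2 y fun s => ?_)⟩
  obtain ⟨Y, hY⟩ := hy s
  exact ⟨Y, hY⟩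

end Pool.Agent.Results.MP_1e27bd_ag.OneParameterHyperelliptic
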